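import Mathlib

/-!
Auxiliary results for the rooted Godsil-McKay theorem (MP_50ecf8_co).
-/

set_option autoImplicit false

namespace Pool.Agent.Lib.MP50ecf8

open Matrix Polynomial Finset

section Alg

variable {V : Type} [Fintype V] [DecidableEq V] {R : Type} [CommRing R]

/-- delete the row and the column `i` -/
def del (M : Matrix V V R) (i : V) : Matrix {u // u ≠ i} {u // u ≠ i} R :=
  M.submatrix Subtype.val Subtype.val

lemma adj_diag (M : Matrix V V R) (i : V) : M.adjugate i i = (del M i).det := by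
  rw [adjugate_apply, twoBlockTriangular_det' _ (fun u => u = i)]
  · rw [@det_eq_elem_of_subsingleton {u // u = i} _ (_) R _ _ _ ⟨i, rfl⟩]
    have h1 : toSquareBlockProp (M.updateRow i (Pi.single i 1)) (fun u => u = i)
        ⟨i, rfl⟩ ⟨i, rfl⟩ = 1 := by
      simp [toSquareBlockProp]
    rw [h1, one_mul]
    congr 1
    ext u v
    have hu : (u : V) ≠ i := u.2
    simp [toSquareBlockProp, del, updateRow_ne hu]
  · intro u hu j hj
    subst hu
    simp [hj]

lemma derivative_det (M : Matrix V V R[X]) (d : V → R[X])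
    (hd : ∀ u v, derivative (M u v) = if u = v then d v else 0) :
    derivative M.det = ∑ i, d i * M.adjugate i i := by
  have h1 : ∀ i, d i * M.adjugate i i = (M.updateCol i (fun u => derivative (M u i))).det := by
    intro i
    rw [← cramer_apply, cramer_eq_adjugate_mulVec]
    simp only [mulVec, dotProduct, hd, mul_ite, mul_zero]
    rw [Finset.sum_ite_eq']
    simp [mul_comm]
  simp only [h1]
  rw [det_apply', map_sum]
  have h2 : ∀ i, (M.updateCol i (fun u => derivative (M u i))).det =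
      ∑ σ : Equiv.Perm V, ((Equiv.Perm.sign σ : ℤ) : R[X]) *
        ((∏ j ∈ univ.erase i, M (σ j) j) * derivative (M (σ i) i)) := by
    intro i
    rw [det_apply']
    apply Finset.sum_congr rfl
    intro σ _
    congr 1
    rw [← Finset.mul_prod_erase univ _ (mem_univ i), mul_comm]
    congr 1
    · apply Finset.prod_congr rfl
      intro j hj
      rw [updateCol_ne (Finset.ne_of_mem_erase hj)]
    · simp
  simp only [h2]
  rw [Finset.sum_comm]
  apply Finset.sum_congr rfl
  intro σ _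
  rw [← Finset.mul_sum, derivative_mul]
  simp only [derivative_intCast, zero_mul, zero_add]
  rw [derivative_prod_finset]

end Alg

section Graph

variable {V : Type} [Fintype V] [DecidableEq V]

open Classical in
/-- `x + y (A + α D + β J)`, `D` the diagonal matrix of the neighbourhood of `a`. -/
noncomputable def K {R : Type} [CommRing R] (G : SimpleGraph V) (a : V) (x y α β : R) :
    Matrix V V R := fun u v =>
  (if u = v then x else 0) + y * ((if G.Adj u v then 1 else 0) +
    (if u = v then (if G.Adj a v then α else 0) else 0) + β)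

/-- the deck hypothesis -/
def Deck (G : SimpleGraph V) (a b : V) (τ : {v // v ≠ a} ≃ {v // v ≠ b}) : Prop :=
  ∀ i : {v // v ≠ a}, ∃ e : {u // u ≠ i.1} ≃ {u // u ≠ (τ i).1},
    (∀ u v, G.Adj (e u).1 (e v).1 ↔ G.Adj u.1 v.1) ∧ ∀ u, u.1 = a → (e u).1 = b

omit [Fintype V] in
lemma K_map {R S : Type} [CommRing R] [CommRing S] (f : R →+* S) (G : SimpleGraph V) (a : V)
    (x y α β : R) : (K G a x y α β).map f = K G a (f x) (f y) (f α) (f β) := by
  ext u v
  simp only [K, map_apply, map_add, map_mul]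
  congr 1
  · split_ifs <;> simp
  · congr 2
    congr 1
    · split_ifs <;> simp
    · split_ifs <;> simp

variable {G : SimpleGraph V} {a b : V} {τ : {v // v ≠ a} ≃ {v // v ≠ b}}

omit [Fintype V] in
open Classical in
lemma deck_del (h : Deck G a b τ) {R : Type} [CommRing R] (x y α β : R) (i : {v // v ≠ a}) :
    ∃ e : {u // u ≠ i.1} ≃ {u // u ≠ (τ i).1}, (∀ u, u.1 = a → (e u).1 = b) ∧
      del (K G a x y α β) i.1 = (del (K G b x y α β) (τ i).1).submatrix e e := by
  obtain ⟨e, he, hea⟩ := h i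
  refine ⟨e, hea, ?_⟩
  have hab : ∀ v : {u // u ≠ i.1}, G.Adj b (e v).1 ↔ G.Adj a v.1 := by
    intro v
    have h1 := he ⟨a, i.2.symm⟩ v
    rw [hea _ rfl] at h1
    exact h1
  ext u v
  have h2 : ((e u).1 = (e v).1) ↔ u.1 = v.1 := by
    rw [← Subtype.ext_iff, ← Subtype.ext_iff]
    exact e.injective.eq_iff
  have h3 := he u v
  have h4 := hab v
  simp only [del, K, submatrix_apply, h2]
  rw [if_congr h3 rfl rfl, if_congr h4 rfl rfl]

lemma deck_det (h : Deck G a b τ) {R : Type} [CommRing R] (x y α β : R) (i : {v // v ≠ a}) :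
    (K G a x y α β).adjugate i.1 i.1 = (K G b x y α β).adjugate (τ i).1 (τ i).1 := by
  obtain ⟨e, -, he⟩ := deck_del h x y α β i
  rw [adj_diag, adj_diag, he, det_submatrix_equiv_self]

open Classical in
/-- corresponding vertices are neighbours of the roots at the same time -/
lemma deck_adj (h : Deck G a b τ) (hp : 3 ≤ Fintype.card V) (i : {v // v ≠ a}) :
    G.Adj b (τ i).1 ↔ G.Adj a i.1 := by
  set f : V → ℤ := fun u => if G.Adj a u then 1 else 0 with hf
  set g : V → ℤ := fun u => if G.Adj b u then 1 else 0 with hg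
  have hsub : ∀ (c : V) (k : V → ℤ), ∑ u : {u // u ≠ c}, k u.1 = ∑ u, k u - k c := by
    intro c k
    rw [← Finset.sum_subtype (univ.erase c) (by simp) k, ← Finset.add_sum_erase univ k (mem_univ c)]
    ring
  have h1 : ∀ i : {v // v ≠ a}, ∑ u, f u - f i.1 = ∑ u, g u - g (τ i).1 := by
    intro i
    obtain ⟨e, he, hea⟩ := h i
    rw [← hsub, ← hsub, ← Equiv.sum_comp e]
    apply Finset.sum_congr rfl
    intro v _
    have h1 := he ⟨a, i.2.symm⟩ v
    rw [hea _ rfl] at h1
    simp only [hf, hg, h1]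
  have h2 : ∑ i : {v // v ≠ a}, (∑ u, f u - f i.1) = ∑ i : {v // v ≠ b}, (∑ u, g u - g i.1) := by
    rw [← Equiv.sum_comp τ]
    exact Finset.sum_congr rfl fun i _ => h1 i
  rw [Finset.sum_sub_distrib, Finset.sum_sub_distrib, hsub, hsub, Finset.sum_const,
    Finset.sum_const] at h2
  have hfa : f a = 0 := by simp [hf]
  have hgb : g b = 0 := by simp [hg]
  have hca : (univ : Finset {v // v ≠ a}).card = Fintype.card V - 1 := by
    rw [Finset.card_univ]
    simp
  have hcb : (univ : Finset {v // v ≠ b}).card = Fintype.card V - 1 := by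
    rw [Finset.card_univ]
    simp
  rw [hfa, hgb, hca, hcb, nsmul_eq_mul, nsmul_eq_mul] at h2
  have h3 : ((Fintype.card V : ℤ) - 2) * (∑ u, f u - ∑ u, g u) = 0 := by
    have : ((Fintype.card V - 1 : ℕ) : ℤ) = (Fintype.card V : ℤ) - 1 := by
      rw [Nat.cast_sub (by omega)]
      simp
    rw [this] at h2
    linear_combination h2
  have h4 : ∑ u, f u = ∑ u, g u := by
    rcases mul_eq_zero.mp h3 with h | h
    · exfalso
      have : (3 : ℤ) ≤ Fintype.card V := by exact_mod_cast hp
      linarith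
    · linarith
  have h5 := h1 i
  rw [h4] at h5
  have h6 : f i.1 = g (τ i).1 := by linarith
  simp only [hf, hg] at h6
  by_cases h7 : G.Adj a i.1 <;> by_cases h8 : G.Adj b (τ i).1 <;> simp [h7, h8] at h6 ⊢

open Classical in
/-- the two determinants agree -/
lemma det_eq (h : Deck G a b τ) (hp : 3 ≤ Fintype.card V) {R : Type} [CommRing R] [IsDomain R]
    [CharZero R] (x y α β : R) : (K G a x y α β).det = (K G b x y α β).det := by
  have hder : ∀ c : V, derivative (K G c (C x) (C y) X (C β)).det =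
      ∑ i : {v // v ≠ c}, (C y * (if G.Adj c i.1 then 1 else 0)) *
        (K G c (C x) (C y) X (C β)).adjugate i.1 i.1 := by
    intro c
    rw [derivative_det _ (fun i => C y * (if G.Adj c i then 1 else 0))]
    · rw [← Finset.sum_subtype (univ.erase c) (by simp)
        (fun i => (C y * (if G.Adj c i then 1 else 0)) *
        (K G c (C x) (C y) X (C β)).adjugate i i),
        ← Finset.add_sum_erase univ _ (mem_univ c)]
      simp
    · intro u v
      simp only [K, derivative_add, derivative_mul, derivative_C]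
      by_cases huv : u = v
      · subst huv
        by_cases hc : G.Adj c u <;> simp [hc]
      · by_cases hc : G.Adj u v <;> simp [huv, hc]
  set P := (K G a (C x) (C y) X (C β)).det - (K G b (C x) (C y) X (C β)).det with hP
  have hP' : derivative P = 0 := by
    rw [hP, derivative_sub, hder, hder, sub_eq_zero, ← Equiv.sum_comp τ]
    apply Finset.sum_congr rfl
    intro i _
    rw [deck_det h]
    simp only [deck_adj h hp i]
  have hev : ∀ (c : V) (r : R), (K G c (C x) (C y) X (C β)).det.eval r = (K G c x y r β).det := by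
    intro c r
    have := (Polynomial.evalRingHom r).map_det (K G c (C x) (C y) X (C β))
    rw [coe_evalRingHom] at this
    rw [this]
    congr 1
    change (K G c (C x) (C y) X (C β)).map (evalRingHom r) = _
    rw [K_map]
    simp
  have hP0 : P.eval 0 = 0 := by
    rw [hP, eval_sub, hev, hev, sub_eq_zero]
    congr 1
    ext u v
    simp [K]
  have hPz : P = 0 := by
    have h1 := (Polynomial.derivative_eq_zero (p := P)).mp hP'
    rw [Polynomial.eq_C_of_natDegree_eq_zero h1] at hP0 ⊢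
    simpa using hP0
  have := congrArg (Polynomial.eval α) hPz
  rw [hP, eval_sub, hev, hev, eval_zero, sub_eq_zero] at this
  exact this

/-- the minors at the roots agree -/
lemma root_eq (h : Deck G a b τ) (hp : 3 ≤ Fintype.card V) {R : Type} [CommRing R] [IsDomain R]
    [CharZero R] (x y α β : R) :
    (K G a x y α β).adjugate a a = (K G b x y α β).adjugate b b := by
  have hder : ∀ c : V, derivative (K G c X (C y) (C α) (C β)).det =
      (K G c X (C y) (C α) (C β)).adjugate c c +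
      ∑ i : {v // v ≠ c}, (K G c X (C y) (C α) (C β)).adjugate i.1 i.1 := by
    intro c
    rw [derivative_det _ (fun _ => 1)]
    · rw [← Finset.sum_subtype (univ.erase c) (by simp)
        (fun i => (K G c X (C y) (C α) (C β)).adjugate i i),
        Finset.add_sum_erase univ (fun i => (K G c X (C y) (C α) (C β)).adjugate i i) (mem_univ c)]
      simp
    · intro u v
      simp only [K, derivative_add, derivative_mul, derivative_C]
      by_cases huv : u = v
      · subst huv
        by_cases hc : G.Adj c u <;> simp [hc]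
      · by_cases hc : G.Adj u v <;> simp [huv, hc]
  have h1 : (K G a X (C y) (C α) (C β)).adjugate a a = (K G b X (C y) (C α) (C β)).adjugate b b := by
    have h2 := hder a
    have h3 := hder b
    rw [det_eq h hp X (C y) (C α) (C β), h3, ← Equiv.sum_comp τ] at h2
    have h4 : ∑ i : {v // v ≠ a}, (K G a X (C y) (C α) (C β)).adjugate i.1 i.1 =
        ∑ i : {v // v ≠ a}, (K G b X (C y) (C α) (C β)).adjugate (τ i).1 (τ i).1 :=
      Finset.sum_congr rfl fun i _ => deck_det h _ _ _ _ i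
    rw [h4] at h2
    exact (add_right_cancel h2).symm
  have hev : ∀ (c : V), ((K G c X (C y) (C α) (C β)).adjugate c c).eval x =
      (K G c x y α β).adjugate c c := by
    intro c
    have h2 := (Polynomial.evalRingHom x).map_adjugate (K G c X (C y) (C α) (C β))
    have h3 : (evalRingHom x).mapMatrix (K G c X (C y) (C α) (C β)) = K G c x y α β := by
      change (K G c X (C y) (C α) (C β)).map (evalRingHom x) = _
      rw [K_map]
      simp
    rw [h3] at h2
    rw [← h2]
    rfl
  rw [← hev, ← hev, h1]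

end Graph

section Series

variable {n : Type} [Fintype n] [DecidableEq n]

/-- the resolvent `∑ t ^ k N ^ k` -/
noncomputable def Rs (N : Matrix n n ℝ) : Matrix n n (PowerSeries ℝ) :=
  fun i j => PowerSeries.mk fun k => (N ^ k) i j

/-- `1 - t N` -/
noncomputable def Ms (N : Matrix n n ℝ) : Matrix n n (PowerSeries ℝ) :=
  1 - (PowerSeries.X : PowerSeries ℝ) • N.map PowerSeries.C

lemma Rs_eq (N : Matrix n n ℝ) :
    Rs N = 1 + (PowerSeries.X : PowerSeries ℝ) • (N.map PowerSeries.C * Rs N) := by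
  ext i j k
  cases k with
  | zero => simp [Rs, Matrix.one_apply]
  | succ k =>
    have h1 : (PowerSeries.coeff (k + 1)) ((1 : Matrix n n (PowerSeries ℝ)) i j) = 0 := by
      rw [Matrix.one_apply]
      split_ifs
      · rw [PowerSeries.coeff_one]
        simp
      · simp
    rw [Matrix.add_apply, map_add, h1, zero_add, Matrix.smul_apply, smul_eq_mul,
      PowerSeries.coeff_succ_X_mul, Matrix.mul_apply, map_sum]
    simp [Rs, pow_succ', Matrix.mul_apply]

lemma Ms_mul_Rs (N : Matrix n n ℝ) : Ms N * Rs N = 1 := by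
  have h := Rs_eq N
  rw [Ms, sub_mul, one_mul, smul_mul_assoc]
  nth_rewrite 1 [h]
  simp

lemma Rs_mul_Ms (N : Matrix n n ℝ) : Rs N * Ms N = 1 := mul_eq_one_comm.mp (Ms_mul_Rs N)

lemma Ms_det_ne (N : Matrix n n ℝ) : (Ms N).det ≠ 0 := by
  intro h
  have := congrArg Matrix.det (Ms_mul_Rs N)
  rw [det_mul, h, zero_mul, det_one] at this
  exact zero_ne_one this

lemma adj_Ms (N : Matrix n n ℝ) : (Ms N).adjugate = (Ms N).det • Rs N := by
  calc (Ms N).adjugate = (Ms N).adjugate * (Ms N * Rs N) := by rw [Ms_mul_Rs, mul_one]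
    _ = _ := by rw [← mul_assoc, adjugate_mul, smul_mul_assoc, one_mul]

omit [Fintype n] in
lemma del_Ms (N : Matrix n n ℝ) (i : n) : del (Ms N) i = Ms (del N i) := by
  ext u v
  simp only [del, Ms, submatrix_apply, Matrix.sub_apply, Matrix.smul_apply, map_apply,
    Matrix.one_apply, Subtype.ext_iff]

/-- the resolvent of the vertex-deleted matrix -/
lemma Rs_del (N : Matrix n n ℝ) (i : n) (u v : {u // u ≠ i}) :
    Rs N i i * Rs N u.1 v.1 - Rs N u.1 i * Rs N i v.1 = Rs N i i * Rs (del N i) u v := by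
  set Y : Matrix {u // u ≠ i} {u // u ≠ i} (PowerSeries ℝ) := fun u v =>
    Rs N i i * Rs N u.1 v.1 - Rs N u.1 i * Rs N i v.1 with hY
  have h1 : Ms (del N i) * Y = Rs N i i • (1 : Matrix {u // u ≠ i} {u // u ≠ i} (PowerSeries ℝ)) := by
    rw [← del_Ms]
    ext1 u w
    rw [Matrix.mul_apply]
    have h2 : ∀ v : {u // u ≠ i}, del (Ms N) i u v * Y v w =
        (fun v => Ms N u.1 v * (Rs N i i * Rs N v w.1 - Rs N v i * Rs N i w.1)) v.1 := by
      intro v
      rfl
    rw [Finset.sum_congr rfl fun v _ => h2 v]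
    rw [← Finset.sum_subtype (univ.erase i) (by simp)
      (fun v => Ms N u.1 v * (Rs N i i * Rs N v w.1 - Rs N v i * Rs N i w.1))]
    have h3 := Finset.add_sum_erase univ
      (fun v => Ms N u.1 v * (Rs N i i * Rs N v w.1 - Rs N v i * Rs N i w.1)) (mem_univ i)
    have h4 : ∑ v, Ms N u.1 v * (Rs N i i * Rs N v w.1 - Rs N v i * Rs N i w.1) =
        Rs N i i * (Ms N * Rs N) u.1 w.1 - (Ms N * Rs N) u.1 i * Rs N i w.1 := by
      rw [Matrix.mul_apply, Matrix.mul_apply, Finset.mul_sum, Finset.sum_mul,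
        ← Finset.sum_sub_distrib]
      apply Finset.sum_congr rfl
      intro v _
      ring
    rw [h4, Ms_mul_Rs, Matrix.one_apply, Matrix.one_apply, if_neg u.2] at h3
    have h5 : (Rs N i i • (1 : Matrix {u // u ≠ i} {u // u ≠ i} (PowerSeries ℝ))) u w =
        Rs N i i * (if u.1 = w.1 then 1 else 0) := by
      simp [Matrix.one_apply, Subtype.ext_iff]
    rw [h5]
    have h6 : Ms N u.1 i * (Rs N i i * Rs N i w.1 - Rs N i i * Rs N i w.1) = 0 := by ring
    rw [h6] at h3
    linear_combination h3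
  have h7 : Y = Rs N i i • Rs (del N i) := by
    calc Y = (Rs (del N i) * Ms (del N i)) * Y := by rw [Rs_mul_Ms, one_mul]
      _ = _ := by rw [mul_assoc, h1, mul_smul_comm, mul_one]
  have h8 := congrFun (congrFun h7 u) v
  simpa [hY] using h8

lemma pow_submatrix {m : Type} [Fintype m] [DecidableEq m] (M : Matrix n n ℝ) (e : m ≃ n) (k : ℕ) :
    (M.submatrix e e) ^ k = (M ^ k).submatrix e e := by
  induction k with
  | zero => simp
  | succ k ih => rw [pow_succ, ih, pow_succ, submatrix_mul_equiv]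

lemma pow_symm (M : Matrix n n ℝ) (hM : Mᵀ = M) (k : ℕ) (u v : n) : (M ^ k) u v = (M ^ k) v u := by
  have h := Matrix.transpose_pow M k
  rw [hM] at h
  exact congrFun (congrFun h v) u

lemma pow_nonneg' (M : Matrix n n ℝ) (hM : ∀ u v, 0 ≤ M u v) (k : ℕ) (u v : n) :
    0 ≤ (M ^ k) u v := by
  induction k generalizing u v with
  | zero => simp only [pow_zero, Matrix.one_apply]; split_ifs <;> norm_num
  | succ k ih =>
    rw [pow_succ, Matrix.mul_apply]
    exact Finset.sum_nonneg fun w _ => mul_nonneg (ih _ _) (hM _ _)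

/-- two power series with nonnegative coefficients and equal squares are equal -/
lemma sq_unique (f g : PowerSeries ℝ) (hf : ∀ k, 0 ≤ PowerSeries.coeff k f)
    (hg : ∀ k, 0 ≤ PowerSeries.coeff k g) (h : f * f = g * g) : f = g := by
  rcases mul_self_eq_mul_self_iff.mp h with h1 | h1
  · exact h1
  · ext k
    have h2 := congrArg (PowerSeries.coeff k) h1
    rw [map_neg] at h2
    have := hf k
    have := hg k
    linarith

end Series

section Main

lemma charZero_ps : CharZero (PowerSeries ℝ) :=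
  charZero_of_injective_ringHom (f := (PowerSeries.C : ℝ →+* PowerSeries ℝ)) PowerSeries.C_injective

local instance : CharZero (PowerSeries ℝ) := charZero_ps

variable {V : Type} [Fintype V] [DecidableEq V]
variable {G : SimpleGraph V} {a b : V} {τ : {v // v ≠ a} ≃ {v // v ≠ b}}

omit [Fintype V] in
open Classical in
lemma Ms_K (c : V) (α β : ℝ) : Ms (K G c 0 1 α β) =
    K G c 1 (-PowerSeries.X) (PowerSeries.C α) (PowerSeries.C β) := by
  ext1 u v
  simp only [Ms, K, Matrix.sub_apply, Matrix.one_apply, Matrix.smul_apply, map_apply, smul_eq_mul,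
    map_add, map_mul]
  by_cases h1 : u = v <;> by_cases h2 : G.Adj u v <;> by_cases h3 : G.Adj c v <;>
    simp [h1, h2, h3] <;> ring

lemma diag_root (h : Deck G a b τ) (hp : 3 ≤ Fintype.card V) (α β : ℝ) :
    Rs (K G a 0 1 α β) a a = Rs (K G b 0 1 α β) b b := by
  have h1 := root_eq h hp (1 : PowerSeries ℝ) (-PowerSeries.X) (PowerSeries.C α) (PowerSeries.C β)
  rw [← Ms_K, ← Ms_K, adj_Ms, adj_Ms, Matrix.smul_apply, Matrix.smul_apply, smul_eq_mul,
    smul_eq_mul] at h1
  have h2 : (Ms (K G a 0 1 α β)).det = (Ms (K G b 0 1 α β)).det := by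
    rw [Ms_K, Ms_K, det_eq h hp]
  rw [h2] at h1
  exact mul_left_cancel₀ (Ms_det_ne _) h1

lemma diag_other (h : Deck G a b τ) (hp : 3 ≤ Fintype.card V) (α β : ℝ) (i : {v // v ≠ a}) :
    Rs (K G a 0 1 α β) i.1 i.1 = Rs (K G b 0 1 α β) (τ i).1 (τ i).1 := by
  have h1 := deck_det h (1 : PowerSeries ℝ) (-PowerSeries.X) (PowerSeries.C α) (PowerSeries.C β) i
  rw [← Ms_K, ← Ms_K, adj_Ms, adj_Ms, Matrix.smul_apply, Matrix.smul_apply, smul_eq_mul,
    smul_eq_mul] at h1
  have h2 : (Ms (K G a 0 1 α β)).det = (Ms (K G b 0 1 α β)).det := by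
    rw [Ms_K, Ms_K, det_eq h hp]
  rw [h2] at h1
  exact mul_left_cancel₀ (Ms_det_ne _) h1

lemma del_root (h : Deck G a b τ) (α β : ℝ) (i : {v // v ≠ a}) :
    Rs (del (K G a 0 1 α β) i.1) ⟨a, i.2.symm⟩ ⟨a, i.2.symm⟩ =
      Rs (del (K G b 0 1 α β) (τ i).1) ⟨b, (τ i).2.symm⟩ ⟨b, (τ i).2.symm⟩ := by
  obtain ⟨e, hea, he⟩ := deck_del h (0 : ℝ) 1 α β i
  have hea' : e ⟨a, i.2.symm⟩ = ⟨b, (τ i).2.symm⟩ := Subtype.ext (hea _ rfl)
  ext k
  simp only [Rs, PowerSeries.coeff_mk, he, pow_submatrix, submatrix_apply, hea']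

lemma prod_eq (h : Deck G a b τ) (hp : 3 ≤ Fintype.card V) (α β : ℝ) (i : {v // v ≠ a}) :
    Rs (K G a 0 1 α β) a i.1 * Rs (K G a 0 1 α β) i.1 a =
      Rs (K G b 0 1 α β) b (τ i).1 * Rs (K G b 0 1 α β) (τ i).1 b := by
  have h1 := Rs_del (K G a 0 1 α β) i.1 ⟨a, i.2.symm⟩ ⟨a, i.2.symm⟩
  have h2 := Rs_del (K G b 0 1 α β) (τ i).1 ⟨b, (τ i).2.symm⟩ ⟨b, (τ i).2.symm⟩
  simp only at h1 h2
  rw [del_root h, diag_other h hp, diag_root h hp] at h1
  linear_combination h2 - h1

omit [Fintype V] in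
open Classical in
lemma K_symm (c : V) (α β : ℝ) : (K G c 0 1 α β)ᵀ = K G c 0 1 α β := by
  ext u v
  simp only [K, transpose_apply]
  by_cases h1 : u = v
  · subst h1
    rfl
  · have h2 : ¬ v = u := fun h => h1 h.symm
    simp only [h1, h2, if_false]
    rw [if_congr (G.adj_comm v u) rfl rfl]

omit [Fintype V] in
lemma K_nonneg (c : V) {α β : ℝ} (hα : 0 ≤ α) (hβ : 0 ≤ β) (u v : V) :
    0 ≤ K G c 0 1 α β u v := by
  simp only [K]
  have : (0 : ℝ) ≤ 1 := zero_le_one
  split_ifs <;> simp <;> positivity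

/-- the roots see corresponding vertices in the same way -/
lemma col_eq (h : Deck G a b τ) (hp : 3 ≤ Fintype.card V) {α β : ℝ} (hα : 0 ≤ α) (hβ : 0 ≤ β)
    (φ : V ≃ V) (hφa : φ a = b) (hφ : ∀ i : {v // v ≠ a}, φ i.1 = (τ i).1) (i : V) :
    Rs (K G a 0 1 α β) i a = Rs (K G b 0 1 α β) (φ i) b := by
  by_cases hi : i = a
  · subst hi
    rw [hφa]
    exact diag_root h hp α β
  · have h1 := prod_eq h hp α β ⟨i, hi⟩
    have h2 := hφ ⟨i, hi⟩
    simp only at h1 h2
    rw [← h2] at h1
    have h3 : ∀ c u v, Rs (K G c 0 1 α β) u v = Rs (K G c 0 1 α β) v u := by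
      intro c u v
      ext k
      simp only [Rs, PowerSeries.coeff_mk]
      exact pow_symm _ (K_symm c α β) k u v
    rw [h3 a a i, h3 b b (φ i)] at h1
    apply sq_unique _ _ _ _ h1
    · intro k
      simp only [Rs, PowerSeries.coeff_mk]
      exact pow_nonneg' _ (K_nonneg a hα hβ) _ _ _
    · intro k
      simp only [Rs, PowerSeries.coeff_mk]
      exact pow_nonneg' _ (K_nonneg b hα hβ) _ _ _

/-- row sums of the resolvent -/
lemma one_eq (h : Deck G a b τ) (hp : 3 ≤ Fintype.card V) {α : ℝ} (hα : 0 ≤ α)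
    (φ : V ≃ V) (hφa : φ a = b) (hφ : ∀ i : {v // v ≠ a}, φ i.1 = (τ i).1) (i : V) :
    ∑ u, Rs (K G a 0 1 α 0) i u = ∑ u, Rs (K G b 0 1 α 0) (φ i) u := by
  have h1 : ∀ (c i : V), Rs (K G c 0 1 α 1) i c = Rs (K G c 0 1 α 0) i c +
      PowerSeries.X * ((∑ u, Rs (K G c 0 1 α 0) i u) * ∑ v, Rs (K G c 0 1 α 1) v c) := by
    intro c i
    have h2 : Ms (K G c 0 1 α 1) = Ms (K G c 0 1 α 0) -
        (PowerSeries.X : PowerSeries ℝ) • (Matrix.of fun _ _ => 1 : Matrix V V (PowerSeries ℝ)) := by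
      ext1 u v
      simp only [Ms, K, Matrix.sub_apply, Matrix.smul_apply, map_apply, smul_eq_mul, map_add,
        map_mul, map_one, map_zero, of_apply]
      ring
    have h3 : Rs (K G c 0 1 α 1) = Rs (K G c 0 1 α 0) + (PowerSeries.X : PowerSeries ℝ) •
        (Rs (K G c 0 1 α 0) * ((Matrix.of fun _ _ => 1 : Matrix V V (PowerSeries ℝ)) *
          Rs (K G c 0 1 α 1))) := by
      have h4 := Ms_mul_Rs (K G c 0 1 α 1)
      rw [h2, sub_mul, smul_mul_assoc] at h4
      have h5 := congrArg (fun Z => Rs (K G c 0 1 α 0) * Z) h4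
      simp only [mul_sub, mul_one, mul_smul_comm, ← mul_assoc, Rs_mul_Ms, one_mul] at h5
      rw [← mul_assoc]
      exact sub_eq_iff_eq_add.mp h5
    have h6 := congrFun (congrFun h3 i) c
    rw [h6]
    simp only [Matrix.add_apply, Matrix.smul_apply, smul_eq_mul, Matrix.mul_apply, one_mul,
      of_apply]
    rw [← Finset.sum_mul]
  have hc : ∑ v, Rs (K G a 0 1 α 1) v a = ∑ v, Rs (K G b 0 1 α 1) v b := by
    rw [← Equiv.sum_comp φ (fun v => Rs (K G b 0 1 α 1) v b)]
    exact Finset.sum_congr rfl fun v _ => col_eq h hp hα zero_le_one φ hφa hφ v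
  have hne : ∑ v, Rs (K G b 0 1 α 1) v b ≠ 0 := by
    intro h0
    have := congrArg (PowerSeries.coeff 0) h0
    rw [map_sum] at this
    simp [Rs, Matrix.one_apply] at this
  have h2 := h1 a i
  rw [col_eq h hp hα zero_le_one φ hφa hφ, col_eq h hp hα le_rfl φ hφa hφ, h1 b (φ i), hc] at h2
  have h3 := mul_left_cancel₀ PowerSeries.X_ne_zero (add_left_cancel h2)
  exact (mul_right_cancel₀ hne h3).symm

open Classical in
/-- the defect of `φ` -/
noncomputable def Cm (G : SimpleGraph V) (φ : V ≃ V) : Matrix V V ℝ := fun u v =>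
  (if G.Adj u v then 1 else 0) - (if G.Adj (φ u) (φ v) then 1 else 0)

open Classical in
lemma inter (h : Deck G a b τ) (hp : 3 ≤ Fintype.card V) {α : ℝ}
    (φ : V ≃ V) (hφa : φ a = b) (hφ : ∀ i : {v // v ≠ a}, φ i.1 = (τ i).1)
    (w w' : V → ℝ) (hw : ∀ i, w i = w' (φ i))
    (hN : ∀ i, (K G a 0 1 α 0 *ᵥ w) i = (K G b 0 1 α 0 *ᵥ w') (φ i)) :
    Cm G φ *ᵥ w = 0 := by
  have hadj : ∀ u, G.Adj b (φ u) ↔ G.Adj a u := by
    intro u
    by_cases hu : u = a
    · subst hu
      rw [hφa]
      simp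
    · have := deck_adj h hp ⟨u, hu⟩
      rwa [← hφ ⟨u, hu⟩] at this
  have hmul : ∀ (c : V) (f : V → ℝ) (u : V), (K G c 0 1 α 0 *ᵥ f) u =
      ∑ v, (if G.Adj u v then 1 else 0) * f v + (if G.Adj c u then α else 0) * f u := by
    intro c f u
    have h1 : (if G.Adj c u then α else 0) * f u =
        ∑ v, (if u = v then (if G.Adj c v then α else 0) else 0) * f v := by
      simp only [ite_mul, zero_mul]
      rw [Finset.sum_ite_eq]
      simp
    rw [h1, ← Finset.sum_add_distrib]
    simp only [mulVec, dotProduct, K]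
    apply Finset.sum_congr rfl
    intro v _
    by_cases huv : u = v <;> simp [huv]
  funext u
  have h1 := hN u
  rw [hmul, hmul] at h1
  simp only [hadj, ← hw] at h1
  have h2 := add_right_cancel h1
  rw [← Equiv.sum_comp φ (fun v => (if G.Adj (φ u) v then (1 : ℝ) else 0) * w' v)] at h2
  simp only [← hw] at h2
  simp only [mulVec, dotProduct, Cm, sub_mul, Finset.sum_sub_distrib, Pi.zero_apply]
  rw [h2, sub_self]

lemma ker_e (h : Deck G a b τ) (hp : 3 ≤ Fintype.card V) {α : ℝ} (hα : 0 ≤ α)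
    (φ : V ≃ V) (hφa : φ a = b) (hφ : ∀ i : {v // v ≠ a}, φ i.1 = (τ i).1) (k : ℕ) :
    Cm G φ *ᵥ ((K G a 0 1 α 0) ^ k *ᵥ Pi.single a 1) = 0 := by
  have h1 : ∀ (k : ℕ) (i : V), ((K G a 0 1 α 0) ^ k *ᵥ Pi.single a 1) i =
      ((K G b 0 1 α 0) ^ k *ᵥ Pi.single b 1) (φ i) := by
    intro k i
    have h2 := congrArg (PowerSeries.coeff k) (col_eq h hp hα le_rfl φ hφa hφ i)
    simpa [Rs] using h2
  apply inter h hp φ hφa hφ _ ((K G b 0 1 α 0) ^ k *ᵥ Pi.single b 1) (h1 k)
  intro i
  rw [mulVec_mulVec, mulVec_mulVec, ← pow_succ', ← pow_succ']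
  exact h1 (k + 1) i

lemma ker_one (h : Deck G a b τ) (hp : 3 ≤ Fintype.card V) {α : ℝ} (hα : 0 ≤ α)
    (φ : V ≃ V) (hφa : φ a = b) (hφ : ∀ i : {v // v ≠ a}, φ i.1 = (τ i).1) (k : ℕ) :
    Cm G φ *ᵥ ((K G a 0 1 α 0) ^ k *ᵥ 1) = 0 := by
  have h1 : ∀ (k : ℕ) (i : V), ((K G a 0 1 α 0) ^ k *ᵥ (1 : V → ℝ)) i =
      ((K G b 0 1 α 0) ^ k *ᵥ (1 : V → ℝ)) (φ i) := by
    intro k i
    have h2 := congrArg (PowerSeries.coeff k) (one_eq h hp hα φ hφa hφ i)
    rw [map_sum, map_sum] at h2
    simpa [Rs, mulVec, dotProduct] using h2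
  apply inter h hp φ hφa hφ _ ((K G b 0 1 α 0) ^ k *ᵥ (1 : V → ℝ)) (h1 k)
  intro i
  rw [mulVec_mulVec, mulVec_mulVec, ← pow_succ', ← pow_succ']
  exact h1 (k + 1) i

/-- from nonnegative parameters to all parameters -/
lemma ext_param (c : V) (B : Matrix V V ℝ) (f : V → ℝ) (k : ℕ)
    (h : ∀ α : ℝ, 0 ≤ α → B *ᵥ ((K G c 0 1 α 0) ^ k *ᵥ f) = 0) (α : ℝ) :
    B *ᵥ ((K G c 0 1 α 0) ^ k *ᵥ f) = 0 := by
  funext u
  set P : ℝ[X] := ∑ v, C (B u v) * ∑ w, ((K G c 0 1 X 0 : Matrix V V ℝ[X]) ^ k) v w * C (f w)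
    with hP
  have hev : ∀ r : ℝ, P.eval r = (B *ᵥ ((K G c 0 1 r 0) ^ k *ᵥ f)) u := by
    intro r
    have h1 : (evalRingHom r).mapMatrix ((K G c 0 1 X 0 : Matrix V V ℝ[X]) ^ k) =
        (K G c 0 1 r 0) ^ k := by
      rw [map_pow]
      congr 1
      change (K G c 0 1 X 0 : Matrix V V ℝ[X]).map (evalRingHom r) = _
      rw [K_map]
      simp
    have h2 : ∀ v w, eval r (((K G c 0 1 X 0 : Matrix V V ℝ[X]) ^ k) v w) =
        ((K G c 0 1 r 0) ^ k) v w := by
      intro v w
      rw [← h1]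
      rfl
    rw [hP, eval_finsetSum]
    simp only [mulVec, dotProduct, eval_mul, eval_C, eval_finsetSum, h2]
  have hP0 : P = 0 := by
    apply Polynomial.eq_zero_of_infinite_isRoot
    apply Set.Infinite.mono (s := Set.Ici (0 : ℝ))
    · intro r hr
      change P.eval r = 0
      rw [hev, h r hr]
      rfl
    · exact Set.Ici_infinite 0
  rw [← hev, hP0]
  simp

/-- A hollow symmetric matrix whose kernel has codimension at most one is zero. -/
lemma rank_one (B : Matrix V V ℝ) (hs : ∀ u v, B u v = B v u) (hd : ∀ u, B u u = 0)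
    (W : Submodule ℝ (V → ℝ)) (hW : ∀ w ∈ W, B *ᵥ w = 0)
    (hdim : Fintype.card V ≤ Module.finrank ℝ W + 1) (u v : V) : B u v = 0 := by
  by_contra hne
  let L : (V → ℝ) →ₗ[ℝ] ℝ × ℝ :=
    ((LinearMap.proj u).comp B.mulVecLin).prod ((LinearMap.proj v).comp B.mulVecLin)
  have hL : ∀ w, L w = ((B *ᵥ w) u, (B *ᵥ w) v) := fun w => rfl
  have hsurj : Function.Surjective L := by
    rintro ⟨s, t⟩
    refine ⟨Pi.single v (s / B u v) + Pi.single u (t / B u v), ?_⟩
    rw [hL, mulVec_add, Prod.mk.injEq]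
    constructor
    · simp only [Pi.add_apply, mulVec_single, hd, Pi.smul_apply, MulOpposite.smul_eq_mul_unop,
        MulOpposite.unop_op, col_apply]
      field_simp
      ring
    · simp only [Pi.add_apply, mulVec_single, hd, Pi.smul_apply, MulOpposite.smul_eq_mul_unop,
        MulOpposite.unop_op, col_apply, hs v u]
      field_simp
      ring
  have h1 := LinearMap.finrank_range_add_finrank_ker L
  rw [LinearMap.range_eq_top.mpr hsurj, finrank_top, Module.finrank_prod, Module.finrank_self,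
    Module.finrank_pi] at h1
  have h2 : W ≤ LinearMap.ker L := by
    intro w hw
    rw [LinearMap.mem_ker, hL, hW w hw]
    rfl
  have h3 := Submodule.finrank_mono h2
  omega

end Main

end Pool.Agent.Lib.MP50ecf8
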